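import Pool.Agent.Helper98K9.CP.Basic
import Pool.Agent.Helper98K9.CP.St2

set_option autoImplicit false

/-! # [ANB] all good slabs of a window are connected -/

namespace Pool.Agent.Helper98K9.CP

open MeasureTheory ProbabilityTheory Filter
open scoped ENNReal NNReal

namespace AnbL

variable {b : ℕ}

/-- an open column is connected -/
theorem col_conn {ω : Cf} {w : Vt} {h h' : ℤ} {W : Set Vx} (hc : Col ω w h h') (hh : h ≤ h')
    (hW : ∀ t : ℤ, h ≤ t → t ≤ h' → (w, t) ∈ W) : Cn b ω W (w, h) (w, h') := by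
  have key : ∀ n : ℕ, h + n ≤ h' → Cn b ω W (w, h) (w, h + n) := by
    intro n
    induction n with
    | zero => intro _; simpa using Cn.refl ω W (w, h)
    | succ n ih =>
      intro hn
      push_cast at hn
      have h1 := ih (by omega)
      have he : ((w, h + n), true) ∈ edg b W := by
        refine ⟨hW _ (by omega) (by omega), ?_⟩
        simp only [hd, if_true]
        exact hW _ (by omega) (by omega)
      have h2 := Cn.edge he (hc (h + n) (by omega) (by omega))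
      have h3 : hd b ((w, h + n), true) = (w, h + n + 1) := by simp [hd]
      rw [h3] at h2
      have h4 : h + ((n + 1 : ℕ) : ℤ) = h + n + 1 := by push_cast; ring
      rw [h4]
      exact h1.trans h2
  have h5 := key (h' - h).toNat (by omega)
  have h6 : h + ((h' - h).toNat : ℤ) = h' := by omega
  rw [h6] at h5
  exact h5

/-- a common reached vertex with an open column connects the two slabs -/
theorem glue (rsc : S_RSC) {K R : ℕ} {ω : Cf} {i : ℕ} {z w : Vt} {h h' lo : ℤ} (hlo : lo ≤ h - R)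
    (hh : h ≤ h') (h1 : w ∈ Rs b K R (sh h ω) i z)
    (h2 : w ∈ Rs b K R (sh h' ω) i z) (hc : Col ω w h h') :
    Cn b ω (Fz b ((K + 1) * i) z lo) (z, h) (z, h') := by
  have e1 := rsc b K R ω i z w h lo hlo h1
  have e2 := rsc b K R ω i z w h' lo (by omega) h2
  refine (e1.trans ?_).trans e2.symm
  refine col_conn hc hh fun t ht _ => ⟨⟨(K + 1) * i, le_rfl, h1.1⟩, ?_⟩
  simp only
  omega

theorem dsl_sub {R : ℕ} {z : Vt} : dsl b R z ⊆ slab R := fun _ h => h.1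

theorem slab_dep {R : ℕ} {z : Vt} {U : Set (Cf × Cf)} (hU : NiceRel (dsl b R z) U) :
    ∀ ξ₁ ξ₂ η₁ η₂ : Cf, (∀ e ∈ slab R, ξ₁ e = η₁ e) → (∀ e ∈ slab R, ξ₂ e = η₂ e) →
      (ξ₁, ξ₂) ∈ U → (η₁, η₂) ∈ U :=
  fun ξ₁ ξ₂ η₁ η₂ h1 h2 => hU.2.2.2 ξ₁ ξ₂ η₁ η₂ (fun e he => h1 e (dsl_sub he))
    (fun e he => h2 e (dsl_sub he))

/-- no open column between the common vertices -/
def Bad (b K R : ℕ) (i : ℕ) (z : Vt) (n : ℕ) (h h' : ℤ) : Set Cf :=
  {ω | n ≤ (Rs b K R (sh h ω) i z ∩ Rs b K R (sh h' ω) i z).ncard ∧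
      ∀ w ∈ Rs b K R (sh h ω) i z ∩ Rs b K R (sh h' ω) i z, ¬ Col ω w h h'}

end AnbL

open AnbL in
theorem anb (third : S_THIRD) (col : S_COL) (rsc : S_RSC) (nice : S_NICE) : S_ANB := by
  intro b hb K R p hp a c m ha0 ha1 hc hm i z J
  set H : ℤ := 2 * (R : ℤ) + 1 with hH
  have hN := (nice b hb K R c m z).1 i
  set U := Rel b K R c m i z with hU
  set n : ℕ := ⌈c * m ^ i⌉₊ with hn
  let A : ℕ × ℕ → Set Cf := fun x => {ω | sh ((x.1 : ℤ) * H) ω ∈ Good p hp a U ∧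
    sh ((x.2 : ℤ) * H) ω ∈ Good p hp a U ∧
    ∀ q ∈ (((Finset.Icc 1 J).erase x.1).erase x.2).image (fun q : ℕ => (q : ℤ)),
      ¬ ((sh ((x.1 : ℤ) * H) ω, sh (q * H) ω) ∈ U ∧ (sh ((x.2 : ℤ) * H) ω, sh (q * H) ω) ∈ U)}
  let B : ℕ × ℕ → Set Cf := fun x => Bad b K R i z n ((x.1 : ℤ) * H) ((x.2 : ℤ) * H)
  let S : Finset (ℕ × ℕ) := (Finset.Icc 1 J).offDiag
  let S' : Finset (ℕ × ℕ) := (Finset.Icc 1 J ×ˢ Finset.Icc 1 J).filter fun x => x.1 < x.2
  have hScard : S.card ≤ J ^ 2 := by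
    have : S.card ≤ (Finset.Icc 1 J ×ˢ Finset.Icc 1 J).card :=
      Finset.card_le_card fun x hx => by
        rw [Finset.mem_offDiag] at hx
        exact Finset.mem_product.2 ⟨hx.1, hx.2.1⟩
    rw [Finset.card_product, Nat.card_Icc, Nat.add_sub_cancel] at this
    rw [pow_two]; exact this
  have hS'card : S'.card ≤ J ^ 2 := by
    have : S'.card ≤ (Finset.Icc 1 J ×ˢ Finset.Icc 1 J).card :=
      Finset.card_le_card (Finset.filter_subset _ _)
    rw [Finset.card_product, Nat.card_Icc, Nat.add_sub_cancel] at this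
    rw [pow_two]; exact this
  have hsq : 0 ≤ 1 - a ^ 2 := by nlinarith
  have hA : ∀ x ∈ S, (PP Ed p hp).real (A x) ≤ (1 - a ^ 2) ^ (J - 2) := by
    intro x hx
    rw [Finset.mem_offDiag, Finset.mem_Icc, Finset.mem_Icc] at hx
    obtain ⟨⟨h1, h2⟩, ⟨h3, h4⟩, h5⟩ := hx
    have hcard : ((((Finset.Icc 1 J).erase x.1).erase x.2).image (fun q : ℕ => (q : ℤ))).card
        = J - 2 := by
      rw [Finset.card_image_of_injective _ Nat.cast_injective, Finset.card_erase_of_mem,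
        Finset.card_erase_of_mem, Nat.card_Icc]
      · omega
      · rw [Finset.mem_Icc]; exact ⟨h1, h2⟩
      · rw [Finset.mem_erase, Finset.mem_Icc]; exact ⟨h5.symm, h3, h4⟩
    have := third R p hp U a ha0 ha1 hN.1 hN.2.1 (slab_dep hN) H (by omega) (x.1 : ℤ) (x.2 : ℤ)
      ((((Finset.Icc 1 J).erase x.1).erase x.2).image (fun q : ℕ => (q : ℤ)))
      (by exact_mod_cast h5) (by
        rw [Finset.mem_image]
        rintro ⟨q, hq, hq'⟩
        have hq2 : q = x.1 := by exact_mod_cast hq'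
        rw [hq2] at hq
        exact Finset.notMem_erase _ _ (Finset.mem_of_mem_erase hq)) (by
        rw [Finset.mem_image]
        rintro ⟨q, hq, hq'⟩
        have hq2 : q = x.2 := by exact_mod_cast hq'
        rw [hq2] at hq
        exact Finset.notMem_erase _ _ hq)
    rw [hcard] at this
    exact this
  have hp0 : (0 : ℝ) ≤ p := p.2
  have hp1 : (p : ℝ) ≤ 1 := by exact_mod_cast hp
  have hB : ∀ x ∈ S', (PP Ed p hp).real (B x) ≤ (1 - (p : ℝ) ^ (J * (2 * R + 1))) ^ n := by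
    intro x hx
    rw [Finset.mem_filter, Finset.mem_product, Finset.mem_Icc, Finset.mem_Icc] at hx
    obtain ⟨⟨⟨h1, h2⟩, h3, h4⟩, h5⟩ := hx
    have hle : (x.1 : ℤ) * H + 2 * R + 1 ≤ (x.2 : ℤ) * H := by
      have h6 : ((x.1 : ℤ) + 1) * H ≤ (x.2 : ℤ) * H :=
        mul_le_mul_of_nonneg_right (by exact_mod_cast h5) (by omega)
      nlinarith
    have h7 := col b hb K R p hp i z ((x.1 : ℤ) * H) ((x.2 : ℤ) * H) n hle
    refine le_trans h7 ?_
    have h8 : (((x.2 : ℤ) * H - (x.1 : ℤ) * H).toNat) ≤ J * (2 * R + 1) := by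
      have h9 : (x.2 : ℤ) * H - (x.1 : ℤ) * H ≤ ((J * (2 * R + 1) : ℕ) : ℤ) := by
        push_cast
        have h10 : ((x.2 : ℤ) - x.1) * H ≤ J * H :=
          mul_le_mul_of_nonneg_right (by omega) (by omega)
        rw [← hH]
        nlinarith
      omega
    apply pow_le_pow_left₀
    · have := pow_le_one₀ (n := (((x.2 : ℤ) * H - (x.1 : ℤ) * H).toNat)) hp0 hp1
      linarith
    · have := pow_le_pow_of_le_one hp0 hp1 h8
      linarith
  have hpow : 0 ≤ 1 - (p : ℝ) ^ (J * (2 * R + 1)) := by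
    have := pow_le_one₀ (n := J * (2 * R + 1)) hp0 hp1
    linarith
  -- the inclusion
  have hsub : {ω : Cf | ∃ j j' : ℕ, 1 ≤ j ∧ j ≤ J ∧ 1 ≤ j' ∧ j' ≤ J ∧
      sh (j * (2 * R + 1)) ω ∈ Good p hp a (Rel b K R c m i z) ∧
      sh (j' * (2 * R + 1)) ω ∈ Good p hp a (Rel b K R c m i z) ∧
      ¬ Cn b ω (Fz b ((K + 1) * i) z 0) (z, j * (2 * R + 1)) (z, j' * (2 * R + 1))}
      ⊆ (⋃ x ∈ S, A x) ∪ (⋃ x ∈ S', B x) := by
    rintro ω ⟨j, j', h1, h2, h3, h4, h5, h6, h7⟩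
    by_contra hcon
    rw [Set.mem_union, not_or] at hcon
    obtain ⟨hcA, hcB⟩ := hcon
    simp only [Set.mem_iUnion, not_exists] at hcA hcB
    have hjj : j ≠ j' := by
      rintro rfl
      exact h7 (Cn.refl _ _ _)
    -- related slabs are connected
    have hrel : ∀ q q' : ℕ, 1 ≤ q → q ≤ J → 1 ≤ q' → q' ≤ J → q < q' →
        (n ≤ (Rs b K R (sh ((q : ℤ) * H) ω) i z ∩ Rs b K R (sh ((q' : ℤ) * H) ω) i z).ncard) →
        Cn b ω (Fz b ((K + 1) * i) z 0) (z, (q : ℤ) * H) (z, (q' : ℤ) * H) := by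
      intro q q' g1 g2 g3 g4 g5 g6
      have g7 := hcB (q, q') (by
        rw [Finset.mem_filter, Finset.mem_product, Finset.mem_Icc, Finset.mem_Icc]
        exact ⟨⟨⟨g1, g2⟩, g3, g4⟩, g5⟩)
      have g8 : ∃ w ∈ Rs b K R (sh ((q : ℤ) * H) ω) i z ∩ Rs b K R (sh ((q' : ℤ) * H) ω) i z,
          Col ω w ((q : ℤ) * H) ((q' : ℤ) * H) := by
        by_contra hcon
        push Not at hcon
        exact g7 ⟨g6, hcon⟩
      obtain ⟨w, hw, hw'⟩ := g8
      have g9 : (1 : ℤ) * H ≤ (q : ℤ) * H :=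
        mul_le_mul_of_nonneg_right (by exact_mod_cast g1) (by omega)
      have g10 : (q : ℤ) * H ≤ (q' : ℤ) * H :=
        mul_le_mul_of_nonneg_right (by exact_mod_cast g5.le) (by omega)
      exact glue rsc (by omega) g10 hw.1 hw.2 hw'
    have hcount : ∀ ξ ξ' : Cf, (ξ, ξ') ∈ U → n ≤ (Rs b K R ξ i z ∩ Rs b K R ξ' i z).ncard := by
      intro ξ ξ' h
      exact Nat.ceil_le.2 h
    have hconn : ∀ q q' : ℕ, 1 ≤ q → q ≤ J → 1 ≤ q' → q' ≤ J → q ≠ q' →
        (sh ((q : ℤ) * H) ω, sh ((q' : ℤ) * H) ω) ∈ U →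
        Cn b ω (Fz b ((K + 1) * i) z 0) (z, (q : ℤ) * H) (z, (q' : ℤ) * H) := by
      intro q q' g1 g2 g3 g4 g5 g6
      have g7 := hcount _ _ g6
      rcases Nat.lt_or_gt_of_ne g5 with g8 | g8
      · exact hrel q q' g1 g2 g3 g4 g8 g7
      · rw [Set.inter_comm] at g7
        exact (hrel q' q g3 g4 g1 g2 g8 g7).symm
    have hA' := hcA (j, j') (by
      rw [Finset.mem_offDiag, Finset.mem_Icc, Finset.mem_Icc]
      exact ⟨⟨h1, h2⟩, ⟨h3, h4⟩, hjj⟩)
    have hq : ∃ q ∈ (((Finset.Icc 1 J).erase j).erase j').image (fun q : ℕ => (q : ℤ)),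
        (sh ((j : ℤ) * H) ω, sh (q * H) ω) ∈ U ∧ (sh ((j' : ℤ) * H) ω, sh (q * H) ω) ∈ U := by
      by_contra hcon
      push Not at hcon
      exact hA' ⟨h5, h6, fun q hq h => hcon q hq h.1 h.2⟩
    obtain ⟨q, hq, hq1, hq2⟩ := hq
    rw [Finset.mem_image] at hq
    obtain ⟨q, hq, rfl⟩ := hq
    rw [Finset.mem_erase, Finset.mem_erase, Finset.mem_Icc] at hq
    obtain ⟨g1, g2, g3, g4⟩ := hq
    exact h7 ((hconn j q h1 h2 g3 g4 g2.symm hq1).trans (hconn j' q h3 h4 g3 g4 g1.symm hq2).symm)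
  refine le_trans (measureReal_mono hsub (measure_ne_top _ _)) ?_
  refine le_trans (measureReal_union_le _ _) (add_le_add ?_ ?_)
  · refine le_trans (measureReal_biUnion_finset_le _ _) ?_
    refine le_trans (Finset.sum_le_sum hA) ?_
    rw [Finset.sum_const, nsmul_eq_mul]
    apply mul_le_mul_of_nonneg_right _ (by positivity)
    exact_mod_cast hScard
  · refine le_trans (measureReal_biUnion_finset_le _ _) ?_
    refine le_trans (Finset.sum_le_sum hB) ?_
    rw [Finset.sum_const, nsmul_eq_mul]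
    apply mul_le_mul_of_nonneg_right _ (by positivity)
    exact_mod_cast hS'card

end Pool.Agent.Helper98K9.CP
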