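import Pool.Agent.Helper45K9.CP.BkDet

set_option autoImplicit false

/-! # [BK3] number of trifurcation boxes in a big block of the canopy tree times `ℤ` -/

namespace Pool.Agent.Helper98K9.CP

namespace Bk3L

theorem par_iter (b j : ℕ) (x : Vt) : (par b)^[j] x = (x.1 + j, x.2 / b ^ j) := by
  induction j with
  | zero => simp
  | succ j ih =>
    rw [Function.iterate_succ_apply', ih]
    simp only [par]
    rw [Nat.div_div_eq_div_mul, pow_succ]
    push_cast
    rw [add_assoc]

theorem og_diff (b : ℕ) (ω : Cf) (W B : Set Vx) : del (og b ω W) B = og b ω (W \ B) := by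
  ext x y
  constructor
  · rintro ⟨⟨h0, h1, h2, h3⟩, h4, h5⟩
    exact ⟨h0, ⟨h1, h4⟩, ⟨h2, h5⟩, h3⟩
  · rintro ⟨h0, ⟨h1, h4⟩, ⟨h2, h5⟩, h3⟩
    exact ⟨⟨h0, h1, h2, h3⟩, h4, h5⟩

theorem og_mono (b : ℕ) (ω : Cf) {W W' : Set Vx} (h : W ⊆ W') : og b ω W ≤ og b ω W' :=
  fun _ _ hx => ⟨hx.1, h hx.2.1, h hx.2.2.1, hx.2.2.2⟩

/-- the vertices of the big block of the tree -/
def TT (b n : ℕ) : Finset Vt :=
  (Finset.range (n + 1)).biUnion fun k =>
    (Finset.range (b ^ (n - k))).image fun m : ℕ => ((k : ℤ), m)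

theorem sum_le (b : ℕ) (hb : 2 ≤ b) (n : ℕ) :
    ∑ k ∈ Finset.range (n + 1), b ^ (n - k) ≤ 2 * b ^ n := by
  have h1 : ∑ k ∈ Finset.range (n + 1), b ^ (n - k) = ∑ k ∈ Finset.range (n + 1), b ^ k := by
    rw [← Finset.sum_range_reflect]
    apply Finset.sum_congr rfl
    intro k hk
    rw [Finset.mem_range] at hk
    congr 1
    omega
  rw [h1]
  induction n with
  | zero => simp
  | succ n ih =>
    rw [Finset.sum_range_succ, pow_succ]
    have h2 := ih (by
      rw [← Finset.sum_range_reflect]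
      apply Finset.sum_congr rfl
      intro k hk
      rw [Finset.mem_range] at hk
      congr 1
      omega)
    nlinarith [Nat.zero_le (b ^ n)]

theorem TT_card (b : ℕ) (hb : 2 ≤ b) (n : ℕ) : (TT b n).card ≤ 2 * b ^ n := by
  refine le_trans Finset.card_biUnion_le (le_trans (Finset.sum_le_sum fun k _ =>
    Finset.card_image_le) ?_)
  simp only [Finset.card_range]
  exact sum_le b hb n

theorem mem_TT {b n : ℕ} {x : Vt} : x ∈ TT b n ↔
    ∃ k m : ℕ, k ≤ n ∧ m < b ^ (n - k) ∧ x = ((k : ℤ), m) := by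
  simp only [TT, Finset.mem_biUnion, Finset.mem_range, Finset.mem_image]
  constructor
  · rintro ⟨k, hk, m, hm, rfl⟩
    exact ⟨k, m, by omega, hm, rfl⟩
  · rintro ⟨k, m, hk, hm, rfl⟩
    exact ⟨k, by omega, m, hm, rfl⟩

/-- the big block -/
def La (b n N : ℕ) : Set Vx := {x | x.1 ∈ TT b n ∧ 0 ≤ x.2 ∧ x.2 < N}

theorem La_fin (b n N : ℕ) : (La b n N).Finite := by
  apply Set.Finite.subset ((TT b n ×ˢ Finset.Ico (0 : ℤ) N).finite_toSet)
  rintro x ⟨h1, h2, h3⟩
  rw [Finset.mem_coe, Finset.mem_product, Finset.mem_Ico]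
  exact ⟨h1, h2, h3⟩

/-- the exits -/
noncomputable def YY (b n N : ℕ) : Finset Vx :=
  ((TT b n).image fun v => (v, (-1 : ℤ))) ∪ ((TT b n).image fun v => (v, (N : ℤ))) ∪
    ((Finset.range N).image fun t : ℕ => ((((n : ℤ) + 1, 0) : Vt), (t : ℤ)))

theorem YY_card (b : ℕ) (hb : 2 ≤ b) (n N : ℕ) : (YY b n N).card ≤ 4 * b ^ n + N := by
  have h1 : ((TT b n).image fun v => (v, (-1 : ℤ))).card ≤ 2 * b ^ n :=
    le_trans Finset.card_image_le (TT_card b hb n)
  have h2 : ((TT b n).image fun v => (v, (N : ℤ))).card ≤ 2 * b ^ n :=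
    le_trans Finset.card_image_le (TT_card b hb n)
  have h3 : ((Finset.range N).image fun t : ℕ => ((((n : ℤ) + 1, 0) : Vt), (t : ℤ))).card ≤ N :=
    le_trans Finset.card_image_le (by simp)
  have h4 := Finset.card_union_le ((TT b n).image fun v => (v, (-1 : ℤ)))
    ((TT b n).image fun v => (v, (N : ℤ)))
  have h5 := Finset.card_union_le (((TT b n).image fun v => (v, (-1 : ℤ))) ∪
    ((TT b n).image fun v => (v, (N : ℤ))))
    ((Finset.range N).image fun t : ℕ => ((((n : ℤ) + 1, 0) : Vt), (t : ℤ)))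
  unfold YY
  omega

theorem YY_notMem {b n N : ℕ} {y : Vx} (hy : y ∈ YY b n N) : y ∉ La b n N := by
  unfold YY at hy
  rw [Finset.mem_union, Finset.mem_union, Finset.mem_image, Finset.mem_image,
    Finset.mem_image] at hy
  rintro ⟨h1, h2, h3⟩
  rcases hy with (⟨v, _, rfl⟩ | ⟨v, _, rfl⟩) | ⟨t, _, rfl⟩
  · simp at h2
  · simp at h3
  · obtain ⟨k, m, hk, _, h⟩ := mem_TT.1 h1
    simp only [Prod.mk.injEq] at h
    omega

/-- leaving the big block through `YY` -/
theorem exit_step {b n N : ℕ} (hb : 2 ≤ b) {ω : Cf} {x y : Vx} (hx : x ∈ La b n N)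
    (hy : y ∉ La b n N) (hxy : (og b ω WC).Adj x y) : y ∈ YY b n N := by
  obtain ⟨-, hxW, hyW, c, h⟩ := hxy
  obtain ⟨hx1, hx2, hx3⟩ := hx
  obtain ⟨k, m, hk, hm, hkm⟩ := mem_TT.1 hx1
  obtain ⟨⟨x1, x2⟩, t⟩ := x
  obtain ⟨⟨y1, y2⟩, s⟩ := y
  simp only [Prod.mk.injEq] at hkm
  obtain ⟨rfl, rfl⟩ := hkm
  simp only at hx1 hx2 hx3
  have hy0 : 0 ≤ y1 := hyW
  unfold YY
  rw [Finset.mem_union, Finset.mem_union, Finset.mem_image, Finset.mem_image,
    Finset.mem_image]
  -- a vertical neighbour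
  have vert : ∀ s : ℤ, (s = t + 1 ∨ s = t - 1) → (((k : ℤ), x2), s) ∉ La b n N →
      (s = -1 ∨ s = N) := by
    intro s hs hn
    by_contra hcon
    push Not at hcon
    apply hn
    refine ⟨hx1, ?_, ?_⟩
    · simp only; omega
    · simp only; omega
  rcases c with _ | _
  · -- tree edge
    simp only [hd, par, Bool.false_eq_true, if_false, Prod.mk.injEq] at h
    rcases h with ⟨⟨⟨h1, h2⟩, h3⟩, -⟩ | ⟨⟨⟨h1, h2⟩, h3⟩, -⟩
    · -- `y` is the parent of `x`
      right
      by_cases hkn : k = n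
      · subst hkn
        refine ⟨t.toNat, ?_, ?_⟩
        · rw [Finset.mem_range]; omega
        · simp only [Nat.sub_self, pow_zero, Nat.lt_one_iff] at hm
          subst hm
          rw [Nat.zero_div] at h2
          rw [← h1, ← h2, ← h3]
          simp only [Prod.mk.injEq, true_and]
          omega
      · exfalso
        apply hy
        refine ⟨mem_TT.2 ⟨k + 1, y2, by omega, ?_, ?_⟩, ?_, ?_⟩
        · rw [← h2, Nat.div_lt_iff_lt_mul (by omega), ← pow_succ]
          have : n - (k + 1) + 1 = n - k := by omega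
          rw [this]; exact hm
        · simp only [Prod.mk.injEq, and_true]
          push_cast; omega
        · simp only; omega
        · simp only; omega
    · -- `x` is the parent of `y`
      exfalso
      apply hy
      have hk1 : 1 ≤ k := by omega
      refine ⟨mem_TT.2 ⟨k - 1, y2, by omega, ?_, ?_⟩, ?_, ?_⟩
      · rw [← h2, Nat.div_lt_iff_lt_mul (by omega), ← pow_succ] at hm
        have : n - (k - 1) = n - k + 1 := by omega
        rw [this]; exact hm
      · simp only [Prod.mk.injEq, and_true]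
        omega
      · simp only; omega
      · simp only; omega
  · -- vertical edge
    simp only [hd, if_true, Prod.mk.injEq] at h
    left
    rcases h with ⟨⟨⟨h1, h2⟩, h3⟩, -⟩ | ⟨⟨⟨h1, h2⟩, h3⟩, -⟩
    · subst h1 h2
      rcases vert s (by omega) hy with h | h
      · left; exact ⟨_, hx1, by rw [h]⟩
      · right; exact ⟨_, hx1, by rw [h]⟩
    · subst h1 h2
      rcases vert s (by omega) hy with h | h
      · left; exact ⟨_, hx1, by rw [h]⟩
      · right; exact ⟨_, hx1, by rw [h]⟩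

/-- an infinite cluster of `W \ B` connected to `B` has an exit -/
theorem exit_of {b n N : ℕ} (hb : 2 ≤ b) {ω : Cf} {B : Set Vx} (hB : B ⊆ La b n N) {x y0 : Vx}
    (hx : x ∈ WC \ B) (hy0 : y0 ∈ B) (hc : Cn b ω WC y0 x)
    (hinf : (cl b ω (WC \ B) x).Infinite) :
    ∃ y ∈ YY b n N, (del (og b ω WC) B).Reachable x y := by
  have hle : og b ω (WC \ B) ≤ og b ω WC := og_mono b ω Set.sdiff_subset
  by_cases hxL : x ∈ La b n N
  · obtain ⟨v, hv, hvL⟩ : ∃ v ∈ cl b ω (WC \ B) x, v ∉ La b n N := by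
      by_contra hcon
      push Not at hcon
      exact hinf ((La_fin b n N).subset hcon)
    obtain ⟨w, hw, x', hx', hwx⟩ := BkDetL.first_hit (H := og b ω (WC \ B))
      (B := (La b n N)ᶜ) (z := x) (x := v) (by simpa using hxL) hvL hv
    have hwL : w ∈ La b n N := by
      have := BkDetL.del_not_mem (by simpa using hxL) hw
      simpa using this
    refine ⟨x', exit_step hb hwL hx' (hle hwx), ?_⟩
    rw [og_diff]
    exact (BkDetL.del_le hw).trans hwx.reachable
  · obtain ⟨w, hw, x', hx', hwx⟩ := BkDetL.first_hit (H := og b ω WC) (B := B) (z := x) (x := y0)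
      hx.2 hy0 hc.symm
    by_cases hwL : w ∈ La b n N
    · obtain ⟨w', hw', x'', hx'', hwx''⟩ := BkDetL.first_hit (H := del (og b ω WC) B)
        (B := La b n N) (z := x) (x := w) hxL hwL hw
      exact ⟨w', exit_step hb hx'' (BkDetL.del_not_mem hxL hw') hwx''.1.symm,
        BkDetL.del_le hw'⟩
    · exact ⟨w, exit_step hb (hB hx') hwL hwx.symm, hw⟩

/-- an open box is connected -/
theorem box_conn (b : ℕ) (ω : Cf) (l m : ℕ) (h : ℤ)
    (hop : ∀ e ∈ edg b (Blk b l l ((l : ℤ), m) h), ω e = true) :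
    ∀ x ∈ Blk b l l ((l : ℤ), m) h, ∀ y ∈ Blk b l l ((l : ℤ), m) h,
      (res (og b ω WC) (Blk b l l ((l : ℤ), m) h)).Reachable x y := by
  set B := Blk b l l ((l : ℤ), m) h with hBdef
  have hBW : B ⊆ WC := by
    rintro x ⟨⟨j, hj, hx⟩, -⟩
    rw [par_iter] at hx
    simp only [Prod.mk.injEq] at hx
    show 0 ≤ x.1.1
    omega
  have hadj : ∀ e ∈ edg b B, (res (og b ω WC) B).Adj e.1 (hd b e) := by
    rintro ⟨x, c⟩ he
    have he' := he
    obtain ⟨h1, h2⟩ := he
    refine ⟨⟨?_, hBW h1, hBW h2, c, Or.inl ⟨rfl, hop _ he'⟩⟩, h1, h2⟩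
    intro heq
    simp only [hd] at heq
    split_ifs at heq
    · have := congrArg (fun q : Vx => q.2) heq
      simp at this
    · have := congrArg (fun q : Vx => q.1.1) heq
      simp [par] at this
  -- going up in the tree
  have hup : ∀ j ≤ l, ∀ (v : Vt) (t : ℤ), (par b)^[j] v = ((l : ℤ), m) → h - l ≤ t → t ≤ h + l →
      (res (og b ω WC) B).Reachable (v, t) (((l : ℤ), m), t) := by
    intro j
    induction j with
    | zero =>
      intro _ v t hv _ _
      simp only [Function.iterate_zero, id] at hv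
      rw [hv]
    | succ j ih =>
      intro hj v t hv h1 h2
      have h3 : (par b)^[j] (par b v) = ((l : ℤ), m) := by
        rw [← Function.iterate_succ_apply]; exact hv
      have h4 := ih (by omega) (par b v) t h3 h1 h2
      have h5 := hadj ((v, t), false) ⟨⟨⟨j + 1, hj, hv⟩, h1, h2⟩, by
        simp only [hd, Bool.false_eq_true, if_false]
        exact ⟨⟨j, by omega, h3⟩, h1, h2⟩⟩
      have h6 : hd b ((v, t), false) = (par b v, t) := by simp [hd]
      rw [h6] at h5
      exact h5.reachable.trans h4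
  have hvert : ∀ (d : ℕ) (t : ℤ), h - l ≤ t → t + d ≤ h + l →
      (res (og b ω WC) B).Reachable (((l : ℤ), m), t) (((l : ℤ), m), t + d) := by
    intro d
    induction d with
    | zero => intro t _ _; simp
    | succ d ih =>
      intro t h1 h2
      push_cast at h2
      have h4 := ih t h1 (by omega)
      have h5 := hadj ((((l : ℤ), m), t + d), true) ⟨⟨⟨0, by omega, rfl⟩, by
        simp only; omega, by simp only; omega⟩, by
        simp only [hd, if_true]
        exact ⟨⟨0, by omega, rfl⟩, by simp only; omega, by simp only; omega⟩⟩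
      have h6 : hd b ((((l : ℤ), m), t + d), true) = (((l : ℤ), m), t + d + 1) := by simp [hd]
      rw [h6] at h5
      have h7 : t + ((d + 1 : ℕ) : ℤ) = t + d + 1 := by push_cast; ring
      rw [h7]
      exact h4.trans h5.reachable
  have hroot : ∀ x ∈ B, (res (og b ω WC) B).Reachable x (((l : ℤ), m), h) := by
    rintro ⟨v, t⟩ ⟨⟨j, hj, hv⟩, h1, h2⟩
    simp only at hv h1 h2
    refine (hup j hj v t hv h1 h2).trans ?_
    rcases le_total t h with hth | hth
    · have := hvert (h - t).toNat t h1 (by omega)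
      have h3 : t + ((h - t).toNat : ℤ) = h := by omega
      rw [h3] at this
      exact this
    · have := hvert (t - h).toNat h (by omega) (by omega)
      have h3 : h + ((t - h).toNat : ℤ) = t := by omega
      rw [h3] at this
      exact this.symm
  intro x hx y hy
  exact (hroot x hx).trans (hroot y hy).symm

theorem box_sub {b l n h m q : ℕ} (hb : 2 ≤ b) (hln : l ≤ n) (hm : m < b ^ (n - l)) (hq : q < h) :
    Blk b l l ((l : ℤ), m) (l + (2 * l + 1) * q) ⊆ La b n ((2 * l + 1) * h) := by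
  rintro ⟨⟨x1, x2⟩, t⟩ ⟨⟨j, hj, hx⟩, h1, h2⟩
  rw [par_iter] at hx
  simp only [Prod.mk.injEq] at hx h1 h2
  obtain ⟨hx1, hx2⟩ := hx
  refine ⟨mem_TT.2 ⟨l - j, x2, by omega, ?_, ?_⟩, ?_, ?_⟩
  · rw [← hx2, Nat.div_lt_iff_lt_mul (by positivity), ← pow_add] at hm
    have : n - (l - j) = n - l + j := by omega
    rw [this]; exact hm
  · simp only [Prod.mk.injEq, and_true]
    omega
  · simp only
    have : (0 : ℤ) ≤ (2 * l + 1) * q := by positivity
    omega
  · simp only
    push_cast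
    have h3 : ((2 * l + 1 : ℤ)) * (q + 1) ≤ (2 * l + 1) * h := by
      apply mul_le_mul_of_nonneg_left _ (by positivity)
      exact_mod_cast hq
    nlinarith

theorem box_disj {b l m m' q q' : ℕ} (hne : (m, q) ≠ (m', q')) :
    Disjoint (Blk b l l ((l : ℤ), m) (l + (2 * l + 1) * q))
      (Blk b l l ((l : ℤ), m') (l + (2 * l + 1) * q')) := by
  rw [Set.disjoint_left]
  rintro ⟨⟨x1, x2⟩, t⟩ ⟨⟨j, hj, hx⟩, h1, h2⟩ ⟨⟨j', hj', hx'⟩, h1', h2'⟩
  rw [par_iter] at hx hx'
  simp only [Prod.mk.injEq] at hx hx' h1 h2 h1' h2'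
  apply hne
  have hjj : j = j' := by omega
  subst hjj
  have hmm : m = m' := hx.2.symm.trans hx'.2
  have hqq : q = q' := by
    by_contra hcon
    rcases Nat.lt_or_gt_of_ne hcon with hlt | hlt
    · have h3 : ((2 * l + 1 : ℤ)) * (q + 1) ≤ (2 * l + 1) * q' := by
        apply mul_le_mul_of_nonneg_left _ (by positivity)
        exact_mod_cast hlt
      nlinarith
    · have h3 : ((2 * l + 1 : ℤ)) * (q' + 1) ≤ (2 * l + 1) * q := by
        apply mul_le_mul_of_nonneg_left _ (by positivity)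
        exact_mod_cast hlt
      nlinarith
  rw [hmm, hqq]

end Bk3L

open Bk3L in
theorem bk3 : S_BK3 := by
  intro b hb l n h hln ω
  set P : Set (ℕ × ℕ) := {q : ℕ × ℕ | q.1 < b ^ (n - l) ∧ q.2 < h ∧
      Tri b WC (Blk b l l ((l : ℤ), q.1) (l + (2 * l + 1) * q.2)) ω} with hP
  have hfin : P.Finite := by
    apply Set.Finite.subset ((Finset.range (b ^ (n - l)) ×ˢ Finset.range h).finite_toSet)
    rintro q ⟨h1, h2, -⟩
    rw [Finset.mem_coe, Finset.mem_product, Finset.mem_range, Finset.mem_range]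
    exact ⟨h1, h2⟩
  have : Fintype P := hfin.fintype
  have hcard : P.ncard = Fintype.card P := by
    rw [← Nat.card_eq_fintype_card]; rfl
  rw [hcard]
  refine le_trans ?_ (YY_card b hb n ((2 * l + 1) * h))
  apply bkdet Vx (og b ω WC) P
    (fun i => Blk b l l ((l : ℤ), i.1.1) (l + (2 * l + 1) * i.1.2)) (YY b n ((2 * l + 1) * h))
  · intro i j hij
    apply box_disj
    intro heq
    apply hij
    apply Subtype.ext
    exact heq
  · intro i
    refine ⟨(((l : ℤ), i.1.1), l + (2 * l + 1) * i.1.2), ⟨0, by omega, rfl⟩, ?_, ?_⟩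
    · simp only; omega
    · simp only; omega
  · intro i
    exact box_conn b ω l i.1.1 _ i.2.2.2.1
  · intro i y hy hyB
    exact YY_notMem hy (box_sub hb hln i.2.1 i.2.2.1 hyB)
  · intro i
    obtain ⟨-, x, hx1, hx2, hx3, hx4⟩ := i.2.2.2
    have hsub := box_sub hb hln i.2.1 i.2.2.1
    have hex : ∀ k, ∃ y ∈ YY b n ((2 * l + 1) * h), (del (og b ω WC)
        (Blk b l l ((l : ℤ), i.1.1) (l + (2 * l + 1) * i.1.2))).Reachable (x k) y := by
      intro k
      obtain ⟨y0, hy0, hc⟩ := hx2 k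
      exact exit_of hb hsub (hx1 k) hy0 hc (hx3 k)
    choose y hy1 hy2 using hex
    refine ⟨y, hy1, ?_, ?_⟩
    · intro k
      obtain ⟨y0, hy0, hc⟩ := hx2 k
      exact ⟨y0, hy0, SimpleGraph.Reachable.trans hc (BkDetL.del_le (hy2 k))⟩
    · intro k k' hkk h
      apply hx4 k k' hkk
      have h2 := ((hy2 k).trans h).trans (hy2 k').symm
      rw [og_diff] at h2
      exact h2

end Pool.Agent.Helper98K9.CP
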