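import Pool.Agent.Helper98K9.CP.St

set_option autoImplicit false

/-! # [BKDET] deterministic Burton-Keane lemma -/

namespace Pool.Agent.Helper98K9.CP

namespace BkDetL

variable {V : Type}

theorem del_not_mem {H : SimpleGraph V} {B : Set V} {y w : V} (hy : y ∉ B)
    (h : (del H B).Reachable y w) : w ∉ B := by
  rw [SimpleGraph.reachable_iff_reflTransGen] at h
  induction h with
  | refl => exact hy
  | tail _ h2 _ => exact h2.2.2

theorem del_le {H : SimpleGraph V} {B : Set V} {y w : V}
    (h : (del H B).Reachable y w) : H.Reachable y w := by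
  have hle : del H B ≤ H := fun _ _ h => h.1
  exact h.mono hle

theorem res_le {H : SimpleGraph V} {B : Set V} {y w : V}
    (h : (res H B).Reachable y w) : H.Reachable y w := by
  have hle : res H B ≤ H := fun _ _ h => h.1
  exact h.mono hle

/-- connected inside `B`, `C` disjoint from `B`: connected outside `C` -/
theorem res_del {H : SimpleGraph V} {B C : Set V} (hd : Disjoint B C) {y w : V}
    (h : (res H B).Reachable y w) : (del H C).Reachable y w := by
  have hle : res H B ≤ del H C := fun a c h => ⟨h.1,
    fun h' => Set.disjoint_left.1 hd h.2.1 h', fun h' => Set.disjoint_left.1 hd h.2.2 h'⟩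
  exact h.mono hle

/-- a component of `H \ B` that avoids `C` is connected in `H \ C` -/
theorem comp_del {H : SimpleGraph V} {B C : Set V} {z w : V}
    (hav : ∀ v, (del H B).Reachable z v → v ∉ C)
    (h : (del H B).Reachable z w) : (del H C).Reachable z w := by
  have h' := h
  rw [SimpleGraph.reachable_iff_reflTransGen] at h'
  induction h' with
  | refl => exact SimpleGraph.Reachable.refl _
  | @tail a c h1 h2 ih =>
    have ha : (del H B).Reachable z a := (SimpleGraph.reachable_iff_reflTransGen _ _).2 h1
    have hc : (del H B).Reachable z c := ha.trans h2.reachable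
    exact (ih ha).trans (SimpleGraph.Adj.reachable ⟨h2.1, hav a ha, hav c hc⟩)

/-- first hit -/
theorem first_hit {H : SimpleGraph V} {B : Set V} {z x : V} (hz : z ∉ B) (hx : x ∈ B)
    (h : H.Reachable z x) : ∃ w, (del H B).Reachable z w ∧ ∃ x' ∈ B, H.Adj w x' := by
  rw [SimpleGraph.reachable_iff_reflTransGen] at h
  induction h using Relation.ReflTransGen.head_induction_on with
  | refl => exact absurd hx hz
  | @head a c h1 _ ih =>
    by_cases hc : c ∈ B
    · exact ⟨a, SimpleGraph.Reachable.refl _, c, hc, h1⟩
    · obtain ⟨w, hw, x', hx', hwx⟩ := ih hc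
      exact ⟨w, (SimpleGraph.Adj.reachable (G := del H B) ⟨h1, hz, hc⟩).trans hw, x', hx', hwx⟩

/-- an exit `z` of `B` whose component in `H \ B` avoids `C` is connected to `B` in `H \ C` -/
theorem conn_del {H : SimpleGraph V} {B C : Set V} (hd : Disjoint B C) {z x : V} (hz : z ∉ B)
    (hx : x ∈ B) (hB : ∀ x ∈ B, ∀ y ∈ B, (res H B).Reachable x y)
    (h : H.Reachable z x) (hav : ∀ v, (del H B).Reachable z v → v ∉ C) :
    (del H C).Reachable z x := by
  obtain ⟨w, hw, x', hx', hwx⟩ := first_hit hz hx h
  have h1 := comp_del hav hw
  have h2 : (del H C).Reachable w x' :=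
    SimpleGraph.Adj.reachable ⟨hwx, hav w hw, fun h' => Set.disjoint_left.1 hd hx' h'⟩
  exact (h1.trans h2).trans (res_del hd (hB x' hx' x hx))

open scoped Classical in
theorem main {ι : Type} (H : SimpleGraph V) (B : ι → Set V)
    (hdis : ∀ i j, i ≠ j → Disjoint (B i) (B j))
    (hcon : ∀ i, ∀ x ∈ B i, ∀ y ∈ B i, (res H (B i)).Reachable x y) (n : ℕ) :
    ∀ (S : Finset ι) (Y : Finset V), S.card = n → (∀ i ∈ S, ∀ y ∈ Y, y ∉ B i) →
      (∀ i ∈ S, ∃ y : Fin 3 → V, (∀ k, y k ∈ Y) ∧ (∀ k, ∃ x ∈ B i, H.Reachable x (y k)) ∧
        ∀ k l, k ≠ l → ¬ (del H (B i)).Reachable (y k) (y l)) →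
      S.card ≤ Y.card := by
  induction n with
  | zero => intro S Y h _ _; omega
  | succ n ih =>
    intro S Y hS hYB hex
    -- the pairs (i, y)
    have hSne : S.Nonempty := by
      rw [← Finset.card_pos]; omega
    set P : Finset (ι × V) := (S ×ˢ Y).filter fun q => ∃ x ∈ B q.1, H.Reachable x q.2 with hP
    have hPne : P.Nonempty := by
      obtain ⟨i, hi⟩ := hSne
      obtain ⟨y, hy1, hy2, -⟩ := hex i hi
      exact ⟨(i, y 0), by
        rw [hP, Finset.mem_filter, Finset.mem_product]
        exact ⟨⟨hi, hy1 0⟩, hy2 0⟩⟩
    -- number of boxes in the component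
    let N : ι × V → ℕ := fun q =>
      (S.filter fun j => ∃ v ∈ B j, (del H (B q.1)).Reachable q.2 v).card
    obtain ⟨⟨i, y⟩, hq, hmin⟩ := Finset.exists_min_image P N hPne
    rw [hP, Finset.mem_filter, Finset.mem_product] at hq
    obtain ⟨⟨hi, hy⟩, x0, hx0, hx0y⟩ := hq
    simp only at hi hy x0 hx0 hx0y
    have hyB : y ∉ B i := hYB i hi y hy
    -- two of the three exits of `B j` have components which avoid `B i`
    have key : ∀ (j i : ι) (y : Fin 3 → V), j ≠ i → (∀ k, y k ∉ B j) →
        (∀ k l, k ≠ l → ¬ (del H (B j)).Reachable (y k) (y l)) →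
        ∀ k l, k ≠ l → (∃ v ∈ B i, (del H (B j)).Reachable (y k) v) →
          ∀ v ∈ B i, ¬ (del H (B j)).Reachable (y l) v := by
      intro j i y hji hyj hyk k l hkl ⟨v, hv, hkv⟩ v' hv' hlv'
      have h1 := res_del (hdis i j hji.symm) (hcon i v hv v' hv')
      exact hyk k l hkl ((hkv.trans h1).trans hlv'.symm)
    -- no box in the component
    have hno : ∀ j ∈ S, ∀ v ∈ B j, ¬ (del H (B i)).Reachable y v := by
      intro j hj v hv hyv
      have hji : j ≠ i := by
        rintro rfl
        exact del_not_mem hyB hyv hv
      obtain ⟨z, hz1, hz2, hz3⟩ := hex j hj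
      have hzj : ∀ k, z k ∉ B j := fun k => hYB j hj _ (hz1 k)
      -- one exit of `B j` whose component avoids `B i`
      obtain ⟨k, hk⟩ : ∃ k, ∀ v ∈ B i, ¬ (del H (B j)).Reachable (z k) v := by
        by_cases h0 : ∃ v ∈ B i, (del H (B j)).Reachable (z 0) v
        · exact ⟨1, key j i z hji hzj hz3 0 1 (by decide) h0⟩
        · exact ⟨0, fun v hv h => h0 ⟨v, hv, h⟩⟩
      have hav : ∀ v, (del H (B j)).Reachable (z k) v → v ∉ B i := fun v h h' => hk v h' h
      obtain ⟨x, hx, hxz⟩ := hz2 k
      have hzx : (del H (B i)).Reachable (z k) x :=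
        conn_del (hdis j i hji) (hzj k) hx (hcon j) hxz.symm hav
      have hyz : (del H (B i)).Reachable y (z k) :=
        (hyv.trans (res_del (hdis j i hji) (hcon j v hv x hx))).trans hzx.symm
      have hlt : N (j, z k) < N (i, y) := by
        apply Finset.card_lt_card
        rw [Finset.ssubset_iff_of_subset]
        · refine ⟨j, ?_, ?_⟩
          · rw [Finset.mem_filter]
            exact ⟨hj, v, hv, hyv⟩
          · rw [Finset.mem_filter]
            rintro ⟨-, v', hv', h'⟩
            exact del_not_mem (hzj k) h' hv'
        · intro j' hj'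
          rw [Finset.mem_filter] at hj' ⊢
          obtain ⟨h1, v', hv', h'⟩ := hj'
          exact ⟨h1, v', hv', hyz.trans (comp_del hav h')⟩
      have := hmin (j, z k) (by
        rw [hP, Finset.mem_filter, Finset.mem_product]
        exact ⟨⟨hj, hz1 k⟩, hz2 k⟩)
      omega
    -- delete `i` and `y`
    have hcard : (S.erase i).card ≤ (Y.erase y).card := by
      apply ih (S.erase i) (Y.erase y)
      · rw [Finset.card_erase_of_mem hi]; omega
      · intro j hj y' hy'
        exact hYB j (Finset.mem_of_mem_erase hj) y' (Finset.mem_of_mem_erase hy')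
      · intro j hj
        have hjS := Finset.mem_of_mem_erase hj
        have hji : j ≠ i := Finset.ne_of_mem_erase hj
        obtain ⟨u, hu1, hu2, hu3⟩ := hex j hjS
        by_cases hyu : ∃ k, u k = y
        · obtain ⟨k0, hk0⟩ := hyu
          -- replacement
          obtain ⟨z, hz1, hz2, hz3⟩ := hex i hi
          have hzi : ∀ k, z k ∉ B i := fun k => hYB i hi _ (hz1 k)
          obtain ⟨k, hk1, hk2⟩ : ∃ k, (∀ v ∈ B j, ¬ (del H (B i)).Reachable (z k) v) ∧
              z k ≠ y := by
            have hav := key i j z hji.symm hzi hz3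
            by_cases h0 : ∃ v ∈ B j, (del H (B i)).Reachable (z 0) v
            · have h1 := hav 0 1 (by decide) h0
              have h2 := hav 0 2 (by decide) h0
              by_cases h3 : z 1 = y
              · refine ⟨2, h2, fun h4 => hz3 1 2 (by decide) ?_⟩
                rw [h3, h4]
              · exact ⟨1, h1, h3⟩
            · by_cases h1 : ∃ v ∈ B j, (del H (B i)).Reachable (z 1) v
              · have h2 := hav 1 2 (by decide) h1
                by_cases h3 : z 0 = y
                · refine ⟨2, h2, fun h4 => hz3 0 2 (by decide) ?_⟩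
                  rw [h3, h4]
                · exact ⟨0, fun v hv h => h0 ⟨v, hv, h⟩, h3⟩
              · by_cases h3 : z 0 = y
                · refine ⟨1, fun v hv h => h1 ⟨v, hv, h⟩, fun h4 => hz3 0 1 (by decide) ?_⟩
                  rw [h3, h4]
                · exact ⟨0, fun v hv h => h0 ⟨v, hv, h⟩, h3⟩
          -- `z k` and `y` are connected outside `B j`
          obtain ⟨x, hx, hxz⟩ := hz2 k
          have e1 : (del H (B j)).Reachable (z k) x :=
            conn_del (hdis i j hji.symm) (hzi k) hx (hcon i) hxz.symm
              (fun v h h' => hk1 v h' h)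
          have e2 : (del H (B j)).Reachable y x := by
            have : (del H (B j)).Reachable y x0 :=
              conn_del (hdis i j hji.symm) hyB hx0 (hcon i) hx0y.symm
                (fun v h h' => hno j hjS v h' h)
            exact this.trans (res_del (hdis i j hji.symm) (hcon i x0 hx0 x hx))
          have e3 : (del H (B j)).Reachable y (z k) := e2.trans e1.symm
          have hne' : ∀ k', k' ≠ k0 → u k' ≠ y := by
            intro k' hk' h
            apply hu3 k' k0 hk'
            rw [h, hk0]
          refine ⟨Function.update u k0 (z k), ?_, ?_, ?_⟩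
          · intro k'
            by_cases hk' : k' = k0
            · subst hk'
              rw [Function.update_self]
              exact Finset.mem_erase.2 ⟨hk2, hz1 k⟩
            · rw [Function.update_of_ne hk']
              exact Finset.mem_erase.2 ⟨hne' k' hk', hu1 k'⟩
          · intro k'
            by_cases hk' : k' = k0
            · subst hk'
              rw [Function.update_self]
              obtain ⟨x', hx', hx'u⟩ := hu2 k'
              rw [hk0] at hx'u
              exact ⟨x', hx', hx'u.trans (del_le e3)⟩
            · rw [Function.update_of_ne hk']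
              exact hu2 k'
          · intro a c hac
            by_cases ha : a = k0
            · subst ha
              rw [Function.update_self, Function.update_of_ne hac.symm]
              intro h
              apply hu3 a c hac
              rw [hk0]
              exact e3.trans h
            · by_cases hc : c = k0
              · subst hc
                rw [Function.update_self, Function.update_of_ne ha]
                intro h
                apply hu3 a c hac
                rw [hk0]
                exact h.trans e3.symm
              · rw [Function.update_of_ne ha, Function.update_of_ne hc]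
                exact hu3 a c hac
        · exact ⟨u, fun k => Finset.mem_erase.2 ⟨fun h => hyu ⟨k, h⟩, hu1 k⟩, hu2, hu3⟩
    rw [Finset.card_erase_of_mem hi, Finset.card_erase_of_mem hy] at hcard
    have hYpos : 0 < Y.card := Finset.card_pos.2 ⟨y, hy⟩
    omega

end BkDetL

theorem bkdet : S_BKDET := by
  intro V H ι _ B Y hdis _ hcon hYB hex
  have := BkDetL.main H B hdis hcon (Finset.univ : Finset ι).card Finset.univ Y rfl
    (fun i _ => hYB i) (fun i _ => hex i)
  simpa using this

end Pool.Agent.Helper98K9.CP
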