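import Pool.Agent.Helper45K9.CP.Anb

set_option autoImplicit false

/-! # [G1] two good slabs of the same tree vertex are connected -/

namespace Pool.Agent.Helper98K9.CP

open MeasureTheory ProbabilityTheory Filter Topology
open scoped ENNReal NNReal

namespace G1L

variable {b : ℕ}

/-- related in `RelI` and no open column ever: probability zero -/
theorem bad_zero (hb : 2 ≤ b) (col : S_COL) (K R : ℕ) (p : ℝ≥0) (hp : p ≤ 1) (c m : ℝ)
    (hp0 : 0 < p) (hc : 0 < c) (hm : 1 < m) (z : Vt) (h h' : ℤ) (hh : h + 2 * R + 1 ≤ h') :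
    (PP Ed p hp) {ω | (sh h ω, sh h' ω) ∈ RelI b K R c m z ∧
      ∀ i, ∀ w ∈ Rs b K R (sh h ω) i z ∩ Rs b K R (sh h' ω) i z, ¬ Col ω w h h'} = 0 := by
  set x : ℝ := (p : ℝ) ^ (h' - h).toNat with hx
  have hx0 : 0 < x := by positivity
  have hx1 : x ≤ 1 := pow_le_one₀ (by positivity) (by exact_mod_cast hp)
  set δ : ℝ := c * (m - 1) with hδ
  have hδ0 : 0 < δ := mul_pos hc (by linarith)
  let B : ℕ → Set Cf := fun i => AnbL.Bad b K R i z ⌈c * m ^ i⌉₊ h h'
  have hB : ∀ i, (PP Ed p hp) (B i) ≤ ENNReal.ofReal ((Real.exp (-(x * δ))) ^ i) := by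
    intro i
    have h1 := col b hb K R p hp i z h h' ⌈c * m ^ i⌉₊ hh
    have h2 : (1 - x) ^ ⌈c * m ^ i⌉₊ ≤ (Real.exp (-(x * δ))) ^ i := by
      have h3 : (1 - x) ^ ⌈c * m ^ i⌉₊ ≤ (Real.exp (-x)) ^ ⌈c * m ^ i⌉₊ := by
        apply pow_le_pow_left₀ (by linarith)
        exact Real.one_sub_le_exp_neg x
      refine h3.trans ?_
      rw [← Real.exp_nat_mul, ← Real.exp_nat_mul, Real.exp_le_exp]
      have h4 : (i : ℝ) * δ ≤ (⌈c * m ^ i⌉₊ : ℝ) := by
        refine le_trans ?_ (Nat.le_ceil _)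
        have h5 : 1 + (i : ℝ) * (m - 1) ≤ m ^ i := by
          have := one_add_mul_le_pow (a := m - 1) (by linarith) i
          have e : (1 + (m - 1)) = m := by ring
          rw [e] at this
          exact this
        rw [hδ]
        nlinarith
      nlinarith
    have h5 := h1.trans h2
    have h6 : (PP Ed p hp) (B i) = ENNReal.ofReal ((PP Ed p hp).real (B i)) := by
      rw [measureReal_def, ENNReal.ofReal_toReal (measure_ne_top _ _)]
    rw [h6]
    exact ENNReal.ofReal_le_ofReal h5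
  have hsum : ∑' i, (PP Ed p hp) (B i) ≠ ⊤ := by
    have hs : Summable fun i : ℕ => (Real.exp (-(x * δ))) ^ i := by
      apply summable_geometric_of_lt_one (Real.exp_pos _).le
      rw [Real.exp_lt_one_iff]
      nlinarith [mul_pos hx0 hδ0]
    exact ne_top_of_le_ne_top hs.tsum_ofReal_ne_top (ENNReal.tsum_le_tsum hB)
  have h0 := measure_limsup_atTop_eq_zero hsum
  refine measure_mono_null ?_ h0
  rintro ω ⟨h1, h2⟩
  rw [mem_limsup_iff_frequently_mem]
  have h3 : ∃ᶠ i in atTop, (sh h ω, sh h' ω) ∈ Rel b K R c m i z := h1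
  refine h3.mono fun i hi => ?_
  exact ⟨Nat.ceil_le.2 hi, h2 i⟩

end G1L

open AnbL G1L in
theorem g1 (third : S_THIRD) (col : S_COL) (rsc : S_RSC) (nice : S_NICE) : S_G1 := by
  intro b hb K R p hp a c m hp0 ha0 ha1 hc hm z j j' hjj
  set H : ℤ := 2 * (R : ℤ) + 1 with hH
  have hN := (nice b hb K R c m z).2
  set U := RelI b K R c m z with hU
  set E : Set Cf := {ω | sh (j * H) ω ∈ Good p hp a U ∧ sh (j' * H) ω ∈ Good p hp a U ∧
      ¬ Cn b ω {y : Vx | j * H - R ≤ y.2} (z, j * H) (z, j' * H)} with hE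
  let Z : ℤ → ℤ → Set Cf := fun q q' => {ω | (sh (q * H) ω, sh (q' * H) ω) ∈ U ∧
      ∀ i, ∀ w ∈ Rs b K R (sh (q * H) ω) i z ∩ Rs b K R (sh (q' * H) ω) i z,
        ¬ Col ω w (q * H) (q' * H)}
  have hZ : ∀ q q' : ℤ, q < q' → (PP Ed p hp).real (Z q q') = 0 := by
    intro q q' hq
    have h1 : (q + 1) * H ≤ q' * H := mul_le_mul_of_nonneg_right (by omega) (by omega)
    have h2 := bad_zero hb col K R p hp c m hp0 hc hm z (q * H) (q' * H) (by nlinarith)
    rw [measureReal_def]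
    have h3 : (PP Ed p hp) (Z q q') = 0 := h2
    rw [h3, ENNReal.toReal_zero]
  -- related slabs are connected
  have hconn : ∀ q q' : ℤ, j ≤ q → q < q' → ∀ ω : Cf, (sh (q * H) ω, sh (q' * H) ω) ∈ U →
      ω ∉ Z q q' → Cn b ω {y : Vx | j * H - R ≤ y.2} (z, q * H) (z, q' * H) := by
    intro q q' h1 h2 ω h3 h4
    have h5 : ∃ i, ∃ w ∈ Rs b K R (sh (q * H) ω) i z ∩ Rs b K R (sh (q' * H) ω) i z,
        Col ω w (q * H) (q' * H) := by
      by_contra hcon
      push Not at hcon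
      exact h4 ⟨h3, hcon⟩
    obtain ⟨i, w, hw, hcw⟩ := h5
    have h6 : j * H ≤ q * H := mul_le_mul_of_nonneg_right h1 (by omega)
    have h7 : q * H ≤ q' * H := mul_le_mul_of_nonneg_right h2.le (by omega)
    have h8 := glue rsc (lo := j * H - R) (by omega) h7 hw.1 hw.2 hcw
    exact h8.mono (fun y hy => hy.2) (fun _ _ h => h)
  have key : ∀ N : ℕ, (PP Ed p hp).real E ≤ (1 - a ^ 2) ^ N := by
    intro N
    let Q : Finset ℤ := (Finset.range N).image fun t : ℕ => j' + 1 + t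
    have hQ : Q.card = N := by
      rw [Finset.card_image_of_injective _ (fun x y h => by simpa using h), Finset.card_range]
    have hQmem : ∀ q ∈ Q, j' < q := by
      intro q hq
      rw [Finset.mem_image] at hq
      obtain ⟨t, _, rfl⟩ := hq
      omega
    have h1 := third R p hp U a ha0.le ha1 hN.1 hN.2.1 (slab_dep hN) H (by omega) j j' Q hjj.ne
      (fun h => by have := hQmem _ h; omega) (fun h => by have := hQmem _ h; omega)
    rw [hQ] at h1
    set A : Set Cf := {ω | sh (j * H) ω ∈ Good p hp a U ∧ sh (j' * H) ω ∈ Good p hp a U ∧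
        ∀ q ∈ Q, ¬ ((sh (j * H) ω, sh (q * H) ω) ∈ U ∧ (sh (j' * H) ω, sh (q * H) ω) ∈ U)} with hA
    have hsub : E ⊆ (A ∪ ⋃ q ∈ Q, Z j q) ∪ ⋃ q ∈ Q, Z j' q := by
      rintro ω ⟨h2, h3, h4⟩
      by_contra hcon
      rw [Set.mem_union, Set.mem_union, not_or, not_or] at hcon
      obtain ⟨⟨hcA, hc1⟩, hc2⟩ := hcon
      simp only [Set.mem_iUnion, not_exists] at hc1 hc2
      have hq : ∃ q ∈ Q, (sh (j * H) ω, sh (q * H) ω) ∈ U ∧ (sh (j' * H) ω, sh (q * H) ω) ∈ U := by
        by_contra hcon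
        push Not at hcon
        exact hcA ⟨h2, h3, fun q hq h => hcon q hq h.1 h.2⟩
      obtain ⟨q, hq, hq1, hq2⟩ := hq
      have h5 := hQmem q hq
      exact h4 ((hconn j q le_rfl (by omega) ω hq1 (hc1 q hq)).trans
        (hconn j' q hjj.le h5 ω hq2 (hc2 q hq)).symm)
    refine le_trans (measureReal_mono hsub (measure_ne_top _ _)) ?_
    refine le_trans (measureReal_union_le _ _) ?_
    have h2 : (PP Ed p hp).real (⋃ q ∈ Q, Z j' q) ≤ 0 := by
      refine le_trans (measureReal_biUnion_finset_le _ _) ?_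
      apply le_of_eq
      apply Finset.sum_eq_zero
      intro q hq
      exact hZ j' q (hQmem q hq)
    have h3 : (PP Ed p hp).real (⋃ q ∈ Q, Z j q) ≤ 0 := by
      refine le_trans (measureReal_biUnion_finset_le _ _) ?_
      apply le_of_eq
      apply Finset.sum_eq_zero
      intro q hq
      have := hQmem q hq
      exact hZ j q (by omega)
    have h4 := measureReal_union_le (μ := PP Ed p hp) A (⋃ q ∈ Q, Z j q)
    linarith
  have hlim : Tendsto (fun N : ℕ => (1 - a ^ 2) ^ N) atTop (𝓝 0) :=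
    tendsto_pow_atTop_nhds_zero_of_lt_one (by nlinarith) (by nlinarith [pow_pos ha0 2])
  have h5 : (PP Ed p hp).real E ≤ 0 := ge_of_tendsto' hlim key
  exact le_antisymm h5 measureReal_nonneg

end Pool.Agent.Helper98K9.CP
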