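import Pool.Agent.Helper98K9.CP.Basic
import Pool.Agent.Helper98K9.CP.St2

set_option autoImplicit false

/-! # [G2] a slab which is good for `z` and for its parent, with the edge between them open -/

namespace Pool.Agent.Helper98K9.CP

open MeasureTheory ProbabilityTheory Filter Topology
open scoped ENNReal NNReal

namespace G2L

theorem meas_open (e : Ed) : MeasurableSet {ω : Cf | ω e = true} := by
  have h : Measurable fun ω : Cf => ω e := measurable_pi_apply e
  exact h (measurableSet_singleton true)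

theorem prob_open (p : ℝ≥0) (hp : p ≤ 1) (e : Ed) :
    (PP Ed p hp).real {ω : Cf | ω e = true} = p := by
  have h1 : MeasurePreserving (fun ω : Cf => ω e) (PP Ed p hp)
      ((PMF.bernoulli p hp).toMeasure) :=
    measurePreserving_eval_infinitePi (fun _ : Ed => (PMF.bernoulli p hp).toMeasure) e
  have h2 : {ω : Cf | ω e = true} = (fun ω : Cf => ω e) ⁻¹' {true} := rfl
  rw [measureReal_def, h2, h1.measure_preimage (measurableSet_singleton true).nullMeasurableSet,
    PMF.toMeasure_apply_singleton _ _ (measurableSet_singleton true)]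
  simp [PMF.bernoulli_apply]

end G2L

open G2L in
theorem g2 (slabs : S_SLABS) (har : S_HAR) (nice : S_NICE) (ngood : S_NGOOD) : S_G2 := by
  intro b hb K R p hp a c m hp0 ha0 z h1 h2
  set H : ℤ := 2 * (R : ℤ) + 1 with hH
  have hN : ∀ y, NiceRel (dsl b R y) (RelI b K R c m y) := fun y => (nice b hb K R c m y).2
  have hG : ∀ y, MeasurableSet (Good p hp a (RelI b K R c m y)) ∧
      Inc (Good p hp a (RelI b K R c m y)) ∧ Dep (slab R) (Good p hp a (RelI b K R c m y)) := by
    intro y
    obtain ⟨g1, g2, g3⟩ := ngood p hp a _ _ (hN y)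
    exact ⟨g1, g2, fun ω ω' h => g3 ω ω' fun e he => h e he.1⟩
  set e0 : Ed := ((z, 0), false) with he0
  have he0s : e0 ∈ slab R := ⟨by simp only [he0]; omega, by simp only [he0]; omega,
    by simp [he0]⟩
  set A : Set Cf := (Good p hp a (RelI b K R c m z) ∩ Good p hp a (RelI b K R c m (par b z))) ∩
    {ω : Cf | ω e0 = true} with hA
  have hAm : MeasurableSet A := ((hG z).1.inter (hG (par b z)).1).inter (meas_open e0)
  have hAd : Dep (slab R) A := by
    rintro ω ω' h ⟨⟨g1, g2⟩, g3⟩
    refine ⟨⟨(hG z).2.2 ω ω' h g1, (hG (par b z)).2.2 ω ω' h g2⟩, ?_⟩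
    have g3' : ω e0 = true := g3
    show ω' e0 = true
    rw [← h e0 he0s]
    exact g3'
  have hAp : 0 < (PP Ed p hp).real A := by
    have g1 := har Ed p hp _ _ (hG z).1 (hG (par b z)).1 (hG z).2.1 (hG (par b z)).2.1
    have hinc : Inc (Good p hp a (RelI b K R c m z) ∩ Good p hp a (RelI b K R c m (par b z))) :=
      fun ω ω' h h' => ⟨(hG z).2.1 ω ω' h h'.1, (hG (par b z)).2.1 ω ω' h h'.2⟩
    have g2 := har Ed p hp _ _ ((hG z).1.inter (hG (par b z)).1) (meas_open e0) hinc
      (fun ω ω' h h' => h e0 h')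
    rw [prob_open] at g2
    have hp0' : (0 : ℝ) < p := by exact_mod_cast hp0
    have g3 : 0 < (PP Ed p hp).real (Good p hp a (RelI b K R c m z) ∩
        Good p hp a (RelI b K R c m (par b z))) := by
      refine lt_of_lt_of_le ?_ g1
      exact mul_pos (lt_of_lt_of_le ha0 h1) (lt_of_lt_of_le ha0 h2)
    exact lt_of_lt_of_le (mul_pos g3 hp0') g2
  have hA1 : (PP Ed p hp).real A ≤ 1 := measureReal_le_one
  set E : Set Cf := {ω | ¬ ∃ j : ℕ, 1 ≤ j ∧
      sh (j * H) ω ∈ Good p hp a (RelI b K R c m z) ∧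
      sh (j * H) ω ∈ Good p hp a (RelI b K R c m (par b z)) ∧
      ω ((z, j * H), false) = true} with hE
  have key : ∀ N : ℕ, (PP Ed p hp).real E ≤ (1 - (PP Ed p hp).real A) ^ N := by
    intro N
    let Q : Finset ℤ := (Finset.range N).image fun t : ℕ => (t : ℤ) + 1
    have hQ : Q.card = N := by
      rw [Finset.card_image_of_injective _ (fun x y h => by simpa using h), Finset.card_range]
    have g1 := slabs R p hp A hAm hAd H (by omega) Q
    rw [hQ] at g1
    refine le_trans (measureReal_mono ?_ (measure_ne_top _ _)) g1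
    intro ω hω q hq hA'
    rw [Finset.mem_image] at hq
    obtain ⟨t, _, rfl⟩ := hq
    apply hω
    refine ⟨t + 1, by omega, ?_⟩
    obtain ⟨⟨g2, g3⟩, g4⟩ := hA'
    push_cast
    refine ⟨g2, g3, ?_⟩
    have g5 : ω ((z, 0 + ((t : ℤ) + 1) * H), false) = true := g4
    rw [zero_add] at g5
    exact g5
  have hlim : Tendsto (fun N : ℕ => (1 - (PP Ed p hp).real A) ^ N) atTop (𝓝 0) :=
    tendsto_pow_atTop_nhds_zero_of_lt_one (by linarith) (by linarith)
  have h5 : (PP Ed p hp).real E ≤ 0 := ge_of_tendsto' hlim key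
  exact le_antisymm h5 measureReal_nonneg

end Pool.Agent.Helper98K9.CP
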