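import Pool.Agent.Helper98K9.CP.St

set_option autoImplicit false

/-! # [THIRD] two good slabs are related to a common third slab -/

namespace Pool.Agent.Helper98K9.CP

open MeasureTheory ProbabilityTheory
open scoped ENNReal NNReal

namespace ThirdL

/-- the edges of the slab as a type -/
abbrev Sl (R : ℕ) : Type := {e : Ed // e ∈ slab R}

open scoped Classical in
/-- extension of a slab configuration by closed edges -/
noncomputable def ext (R : ℕ) (s : Sl R → Bool) : Cf :=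
  fun e => if h : e ∈ slab R then s ⟨e, h⟩ else false

theorem ext_apply {R : ℕ} (s : Sl R → Bool) {e : Ed} (h : e ∈ slab R) : ext R s e = s ⟨e, h⟩ := by
  unfold ext
  rw [dif_pos h]

theorem measurable_ext (R : ℕ) : Measurable (ext R) := by
  refine measurable_pi_lambda _ fun e => ?_
  by_cases h : e ∈ slab R
  · simp only [ext_apply _ h]
    exact measurable_pi_apply _
  · have : (fun s : Sl R → Bool => ext R s e) = fun _ => false := by
      funext s
      unfold ext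
      rw [dif_neg h]
    rw [this]
    exact measurable_const

section

variable {R : ℕ} {p : ℝ≥0} {hp : p ≤ 1} {U : Set (Cf × Cf)} {a : ℝ}

theorem sec_congr
    (hU : ∀ ξ₁ ξ₂ η₁ η₂ : Cf, (∀ e ∈ slab R, ξ₁ e = η₁ e) → (∀ e ∈ slab R, ξ₂ e = η₂ e) →
      (ξ₁, ξ₂) ∈ U → (η₁, η₂) ∈ U) {ξ η : Cf} (h : ∀ e ∈ slab R, ξ e = η e) :
    {ξ' | (ξ, ξ') ∈ U} = {ξ' | (η, ξ') ∈ U} := by
  ext ξ'
  exact ⟨hU _ _ _ _ h (fun _ _ => rfl), hU _ _ _ _ (fun e he => (h e he).symm) (fun _ _ => rfl)⟩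

theorem good_congr
    (hU : ∀ ξ₁ ξ₂ η₁ η₂ : Cf, (∀ e ∈ slab R, ξ₁ e = η₁ e) → (∀ e ∈ slab R, ξ₂ e = η₂ e) →
      (ξ₁, ξ₂) ∈ U → (η₁, η₂) ∈ U) {ξ η : Cf} (h : ∀ e ∈ slab R, ξ e = η e) :
    ξ ∈ Good p hp a U ↔ η ∈ Good p hp a U := by
  unfold Good
  simp only [Set.mem_ofPred_eq]
  rw [sec_congr hU h]

theorem measurable_good (hUm : MeasurableSet U) : MeasurableSet (Good p hp a U) := by
  have h1 : Measurable fun ξ : Cf => (PP Ed p hp) (Prod.mk ξ ⁻¹' U) :=
    measurable_measure_prodMk_left hUm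
  have h2 : Measurable fun ξ : Cf => ((PP Ed p hp) (Prod.mk ξ ⁻¹' U)).toReal :=
    h1.ennreal_toReal
  exact measurableSet_le measurable_const h2

/-- the probability that a slab is not related to both of two good ones -/
theorem one_slab (h1 : S_REIDX) (h2 : S_HAR) (hUm : MeasurableSet U)
    (hinc : ∀ ξ : Cf, Inc {ξ' | (ξ, ξ') ∈ U})
    (hU : ∀ ξ₁ ξ₂ η₁ η₂ : Cf, (∀ e ∈ slab R, ξ₁ e = η₁ e) → (∀ e ∈ slab R, ξ₂ e = η₂ e) →
      (ξ₁, ξ₂) ∈ U → (η₁, η₂) ∈ U) (ha : 0 ≤ a)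
    {ξ ξ' : Cf} (hξ : ξ ∈ Good p hp a U) (hξ' : ξ' ∈ Good p hp a U) :
    (PP (Sl R) p hp) {s | ¬ ((ξ, ext R s) ∈ U ∧ (ξ', ext R s) ∈ U)}
      ≤ ENNReal.ofReal (1 - a ^ 2) := by
  have mp := h1 Ed (Sl R) p hp Subtype.val Subtype.val_injective
  have msec : ∀ ζ : Cf, MeasurableSet {η | (ζ, η) ∈ U} := fun ζ =>
    measurable_prodMk_left hUm
  have msec' : ∀ ζ : Cf, MeasurableSet {s : Sl R → Bool | (ζ, ext R s) ∈ U} := fun ζ =>
    (measurable_ext R) (msec ζ)
  have hm : MeasurableSet {s : Sl R → Bool | ¬ ((ξ, ext R s) ∈ U ∧ (ξ', ext R s) ∈ U)} :=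
    ((msec' ξ).inter (msec' ξ')).compl
  have hpre : (fun (ω : Cf) (k : Sl R) => ω k.1) ⁻¹'
      {s : Sl R → Bool | ¬ ((ξ, ext R s) ∈ U ∧ (ξ', ext R s) ∈ U)}
      = ({η | (ξ, η) ∈ U} ∩ {η | (ξ', η) ∈ U})ᶜ := by
    ext ω
    have hag : ∀ e ∈ slab R, ext R (fun k : Sl R => ω k.1) e = ω e := fun e he =>
      ext_apply _ he
    simp only [Set.mem_preimage, Set.mem_ofPred_eq, Set.mem_compl_iff, Set.mem_inter_iff]
    have e1 : ∀ ζ : Cf, (ζ, ext R (fun k : Sl R => ω k.1)) ∈ U ↔ (ζ, ω) ∈ U := fun ζ =>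
      ⟨hU _ _ _ _ (fun _ _ => rfl) hag, hU _ _ _ _ (fun _ _ => rfl) (fun e he => (hag e he).symm)⟩
    rw [e1, e1]
  rw [← mp.measure_preimage hm.nullMeasurableSet, hpre,
    prob_compl_eq_one_sub ((msec ξ).inter (msec ξ'))]
  have h3 := h2 Ed p hp _ _ (msec ξ) (msec ξ') (hinc ξ) (hinc ξ')
  have h4 : a ^ 2 ≤ (PP Ed p hp).real ({η | (ξ, η) ∈ U} ∩ {η | (ξ', η) ∈ U}) := by
    refine le_trans ?_ h3
    rw [pow_two]
    exact mul_le_mul hξ hξ' ha (le_trans ha hξ)
  have h5 : ENNReal.ofReal (a ^ 2) ≤ (PP Ed p hp) ({η | (ξ, η) ∈ U} ∩ {η | (ξ', η) ∈ U}) :=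
    ENNReal.ofReal_le_of_le_toReal h4
  rw [ENNReal.ofReal_sub _ (by positivity), ENNReal.ofReal_one]
  exact tsub_le_tsub_left h5 _

end

end ThirdL

open ThirdL in
theorem third (h1 : S_REIDX) (h2 : S_HAR) : S_THIRD := by
  intro R p hp U a ha ha1 hUm hinc hU H hH j j' Q hjj hj hj'
  -- the copies
  let C : Type := Bool ⊕ {q : ℤ // q ∈ Q}
  let τ : C → ℤ := Sum.elim (fun c => if c then j' else j) Subtype.val
  have hτ : Function.Injective τ := by
    rintro (c | c) (c' | c') h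
    · cases c <;> cases c' <;> simp_all [τ]
    · exfalso
      simp only [τ, Sum.elim_inl, Sum.elim_inr] at h
      split_ifs at h
      · exact hj' (h ▸ c'.2)
      · exact hj (h ▸ c'.2)
    · exfalso
      simp only [τ, Sum.elim_inl, Sum.elim_inr] at h
      split_ifs at h
      · exact hj' (h ▸ c.2)
      · exact hj (h ▸ c.2)
    · simp only [τ, Sum.elim_inr] at h
      rw [Subtype.ext h]
  let f : C × Sl R → Ed := fun k => ((k.2.1.1.1, k.2.1.1.2 + τ k.1 * H), k.2.1.2)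
  have hf : Function.Injective f := by
    rintro ⟨c, ⟨⟨⟨v, t⟩, d⟩, he⟩⟩ ⟨c', ⟨⟨⟨v', t'⟩, d'⟩, he'⟩⟩ h
    simp only [f, Prod.mk.injEq] at h
    obtain ⟨⟨hv, ht⟩, hd⟩ := h
    have h3 : -(R : ℤ) ≤ t ∧ t ≤ R := ⟨he.1, he.2.1⟩
    have h4 : -(R : ℤ) ≤ t' ∧ t' ≤ R := ⟨he'.1, he'.2.1⟩
    have hcc : τ c = τ c' := by
      by_contra hne
      rcases lt_or_gt_of_ne hne with hlt | hlt
      · have h5 : (τ c + 1) * H ≤ τ c' * H :=
          mul_le_mul_of_nonneg_right (by omega) (by omega)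
        nlinarith
      · have h5 : (τ c' + 1) * H ≤ τ c * H :=
          mul_le_mul_of_nonneg_right (by omega) (by omega)
        nlinarith
    have hc := hτ hcc
    subst hc
    have htt : t = t' := by linarith
    subst hv hd htt
    rfl
  have mp1 := h1 Ed (C × Sl R) p hp f hf
  have mp2 : MeasurePreserving (MeasurableEquiv.curry C (Sl R) Bool) (PP (C × Sl R) p hp)
      (Measure.pi fun _ : C => PP (Sl R) p hp) := by
    refine ⟨(MeasurableEquiv.curry C (Sl R) Bool).measurable, ?_⟩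
    unfold PP
    rw [← Measure.infinitePi_eq_pi]
    exact Measure.infinitePi_map_curry
      (fun (_ : C) (_ : Sl R) => (PMF.bernoulli p hp).toMeasure)
  have mp3 := measurePreserving_sumPiEquivProdPi (X := fun _ : C => Sl R → Bool)
    (fun _ : C => PP (Sl R) p hp)
  have mp := mp3.comp (mp2.comp mp1)
  -- the event
  set E' : Set ((Bool → (Sl R → Bool)) × ({q : ℤ // q ∈ Q} → (Sl R → Bool))) :=
    {x | (ext R (x.1 false) ∈ Good p hp a U ∧ ext R (x.1 true) ∈ Good p hp a U) ∧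
      ∀ q, ¬ ((ext R (x.1 false), ext R (x.2 q)) ∈ U ∧ (ext R (x.1 true), ext R (x.2 q)) ∈ U)}
    with hE'
  have hGm : MeasurableSet (Good p hp a U) := measurable_good hUm
  have hEm : MeasurableSet E' := by
    rw [hE']
    have mx : ∀ c : Bool, Measurable fun x : (Bool → (Sl R → Bool)) ×
        ({q : ℤ // q ∈ Q} → (Sl R → Bool)) => ext R (x.1 c) := fun c =>
      (measurable_ext R).comp ((measurable_pi_apply c).comp measurable_fst)
    have my : ∀ q, Measurable fun x : (Bool → (Sl R → Bool)) ×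
        ({q : ℤ // q ∈ Q} → (Sl R → Bool)) => ext R (x.2 q) := fun q =>
      (measurable_ext R).comp ((measurable_pi_apply q).comp measurable_snd)
    refine MeasurableSet.inter (MeasurableSet.inter (mx false hGm) (mx true hGm)) ?_
    have : {x : (Bool → (Sl R → Bool)) × ({q : ℤ // q ∈ Q} → (Sl R → Bool)) | ∀ q,
        ¬ ((ext R (x.1 false), ext R (x.2 q)) ∈ U ∧ (ext R (x.1 true), ext R (x.2 q)) ∈ U)}
        = ⋂ q, ({x | (ext R (x.1 false), ext R (x.2 q)) ∈ U} ∩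
          {x | (ext R (x.1 true), ext R (x.2 q)) ∈ U})ᶜ := by
      ext x
      simp only [Set.mem_ofPred_eq, Set.mem_iInter, Set.mem_compl_iff, Set.mem_inter_iff]
    change MeasurableSet {x : (Bool → (Sl R → Bool)) × ({q : ℤ // q ∈ Q} → (Sl R → Bool)) | ∀ q,
        ¬ ((ext R (x.1 false), ext R (x.2 q)) ∈ U ∧ (ext R (x.1 true), ext R (x.2 q)) ∈ U)}
    rw [this]
    refine MeasurableSet.iInter fun q => (MeasurableSet.inter ?_ ?_).compl
    · exact ((mx false).prodMk (my q)) hUm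
    · exact ((mx true).prodMk (my q)) hUm
  -- the event is the preimage
  have hpre : {ω : Cf | sh (j * H) ω ∈ Good p hp a U ∧ sh (j' * H) ω ∈ Good p hp a U ∧
        ∀ q ∈ Q, ¬ ((sh (j * H) ω, sh (q * H) ω) ∈ U ∧ (sh (j' * H) ω, sh (q * H) ω) ∈ U)}
      = ((MeasurableEquiv.sumPiEquivProdPi fun _ : C => Sl R → Bool) ∘
        ((MeasurableEquiv.curry C (Sl R) Bool) ∘ fun (ω : Cf) k => ω (f k))) ⁻¹' E' := by
    ext ω
    have hag : ∀ c : C, ∀ e ∈ slab R,
        sh (τ c * H) ω e = ext R (fun e' : Sl R => ω (f (c, e'))) e := by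
      intro c e he
      rw [ext_apply _ he]
      rfl
    have hag0 : ∀ e ∈ slab R,
        sh (j * H) ω e = ext R (fun e' : Sl R => ω (f (Sum.inl false, e'))) e := hag (Sum.inl false)
    have hag1 : ∀ e ∈ slab R,
        sh (j' * H) ω e = ext R (fun e' : Sl R => ω (f (Sum.inl true, e'))) e := hag (Sum.inl true)
    have hagq : ∀ q : {q : ℤ // q ∈ Q}, ∀ e ∈ slab R,
        sh (q.1 * H) ω e = ext R (fun e' : Sl R => ω (f (Sum.inr q, e'))) e :=
      fun q => hag (Sum.inr q)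
    have hUiff : ∀ {ξ₁ ξ₂ η₁ η₂ : Cf}, (∀ e ∈ slab R, ξ₁ e = η₁ e) →
        (∀ e ∈ slab R, ξ₂ e = η₂ e) → ((ξ₁, ξ₂) ∈ U ↔ (η₁, η₂) ∈ U) := fun h h' =>
      ⟨hU _ _ _ _ h h', hU _ _ _ _ (fun e he => (h e he).symm) (fun e he => (h' e he).symm)⟩
    change _ ↔ (ext R (fun e' : Sl R => ω (f (Sum.inl false, e'))) ∈ Good p hp a U ∧
      ext R (fun e' : Sl R => ω (f (Sum.inl true, e'))) ∈ Good p hp a U) ∧
      ∀ q : {q : ℤ // q ∈ Q}, ¬ ((ext R (fun e' : Sl R => ω (f (Sum.inl false, e'))),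
        ext R (fun e' : Sl R => ω (f (Sum.inr q, e')))) ∈ U ∧
        (ext R (fun e' : Sl R => ω (f (Sum.inl true, e'))),
        ext R (fun e' : Sl R => ω (f (Sum.inr q, e')))) ∈ U)
    rw [← good_congr hU hag0, ← good_congr hU hag1, and_assoc]
    refine and_congr Iff.rfl (and_congr Iff.rfl ?_)
    constructor
    · intro h q
      rw [← hUiff hag0 (hagq q), ← hUiff hag1 (hagq q)]
      exact h q.1 q.2
    · intro h q hq
      have := h ⟨q, hq⟩
      rw [← hUiff hag0 (hagq ⟨q, hq⟩), ← hUiff hag1 (hagq ⟨q, hq⟩)] at this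
      exact this
  -- the bound
  have hbound : ((Measure.pi fun _ : Bool => PP (Sl R) p hp).prod
      (Measure.pi fun _ : {q : ℤ // q ∈ Q} => PP (Sl R) p hp)) E'
      ≤ ENNReal.ofReal (1 - a ^ 2) ^ Q.card := by
    rw [Measure.prod_apply hEm]
    have hle : ∀ x : Bool → (Sl R → Bool),
        (Measure.pi fun _ : {q : ℤ // q ∈ Q} => PP (Sl R) p hp) (Prod.mk x ⁻¹' E')
          ≤ ENNReal.ofReal (1 - a ^ 2) ^ Q.card := by
      intro x
      by_cases hx : ext R (x false) ∈ Good p hp a U ∧ ext R (x true) ∈ Good p hp a U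
      · have h3 : Prod.mk x ⁻¹' E' = Set.pi Set.univ fun _ : {q : ℤ // q ∈ Q} =>
            {s | ¬ ((ext R (x false), ext R s) ∈ U ∧ (ext R (x true), ext R s) ∈ U)} := by
          ext y
          simp only [hE', Set.mem_preimage, Set.mem_ofPred_eq, Set.mem_pi, Set.mem_univ,
            true_imp_iff]
          exact ⟨fun h => h.2, fun h => ⟨hx, h⟩⟩
        rw [h3, Measure.pi_pi, Finset.prod_const, Finset.card_univ, Fintype.card_coe]
        exact pow_le_pow_left' (one_slab h1 h2 hUm hinc hU ha hx.1 hx.2) _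
      · have h3 : Prod.mk x ⁻¹' E' = ∅ := by
          ext y
          simp only [hE', Set.mem_preimage, Set.mem_ofPred_eq, Set.mem_empty_iff_false, iff_false]
          exact fun h => hx h.1
        rw [h3, measure_empty]
        exact zero_le
    refine le_trans (lintegral_mono hle) ?_
    rw [lintegral_const, measure_univ, mul_one]
  rw [hpre, measureReal_def, mp.measure_preimage hEm.nullMeasurableSet]
  refine ENNReal.toReal_le_of_le_ofReal ?_ ?_
  · have : a ^ 2 ≤ 1 := by nlinarith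
    positivity [sub_nonneg.2 this]
  · rw [ENNReal.ofReal_pow]
    · exact hbound
    · nlinarith

end Pool.Agent.Helper98K9.CP
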